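import Pool.Agent.X84.Fm.Nd
import Pool.Agent.W486.SC.AD

/-!
# Linear charts near a fixed point of a finite group

Adapted from `Pool.Agent.X84.Pm.Boch` (helper84), which treats cyclic groups.
-/

open scoped Topology ContDiff Manifold
open Set Filter

set_option autoImplicit false
set_option linter.unusedSectionVars false

noncomputable section

namespace Pool.Agent.X183.IM

open Pool.Agent.H718R2.G Pool.Agent.TH80.OMS Pool.Agent.Y504.CO Pool.Agent.Y318.MN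

universe u

variable {n : ℕ} {N : Type u} [TopologicalSpace N] [ChartedSpace (V n) N] [IsManifold (𝓡 n) ∞ N]

/-- the map in the chart -/
def ei (E : N → N) (φ : OpenPartialHomeomorph N (V n)) (v : V n) : V n := φ (E (φ.symm v))

theorem ei_cd {E : N → N} (hE : ContMDiff (𝓡 n) (𝓡 n) ∞ E) {φ : OpenPartialHomeomorph N (V n)}
    (hφ : φ ∈ IsManifold.maximalAtlas (𝓡 n) ∞ N) {v : V n} (hv : v ∈ φ.target)
    (hv' : E (φ.symm v) ∈ φ.source) : ContDiffAt ℝ ∞ (ei E φ) v := by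
  rw [← contMDiffAt_iff_contDiffAt]
  have h1 : ContMDiffAt (𝓡 n) (𝓡 n) ∞ φ.symm v :=
    (contMDiffOn_symm_of_mem_maximalAtlas hφ _ hv).contMDiffAt (φ.open_target.mem_nhds hv)
  have h2 : ContMDiffAt (𝓡 n) (𝓡 n) ∞ (E ∘ φ.symm) v := (hE _).comp v h1
  have h3 : ContMDiffAt (𝓡 n) (𝓡 n) ∞ φ ((E ∘ φ.symm) v) :=
    (contMDiffOn_of_mem_maximalAtlas hφ _ hv').contMDiffAt (φ.open_source.mem_nhds hv')
  exact h3.comp v h2

/-- **Linear charts.** -/
theorem bochner {H : Type*} [Group H] [Fintype H] (ρ : H →* Equiv.Perm N)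
    (hρ : ∀ g, ContMDiff (𝓡 n) (𝓡 n) ∞ (ρ g)) {y : N} (hy : ∀ g, ρ g y = y) :
    ∃ ψ ∈ IsManifold.maximalAtlas (𝓡 n) ∞ N, ∃ L : H →* (V n →L[ℝ] V n), y ∈ ψ.source ∧
      ∀ g, ∀ x ∈ ψ.source, ρ g x ∈ ψ.source ∧ ψ (ρ g x) = L g (ψ x) := by
  classical
  set φ : OpenPartialHomeomorph N (V n) := chartAt (V n) y with hφd
  have hφ : φ ∈ IsManifold.maximalAtlas (𝓡 n) ∞ N := IsManifold.chart_mem_maximalAtlas y
  have hys : y ∈ φ.source := mem_chart_source _ y
  have hyt : φ y ∈ φ.target := φ.map_source hys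
  have hsy : ∀ g, ρ g (φ.symm (φ y)) = y := fun g => by rw [φ.left_inv hys, hy]
  have hcd : ∀ g, ContDiffAt ℝ ∞ (ei (ρ g) φ) (φ y) := fun g =>
    ei_cd (hρ g) hφ hyt (by rw [hsy]; exact hys)
  have hval : ∀ g, ei (ρ g) φ (φ y) = φ y := fun g => by
    show φ (ρ g (φ.symm (φ y))) = φ y
    rw [hsy]
  have hder : ∀ g, HasFDerivAt (ei (ρ g) φ) (fderiv ℝ (ei (ρ g) φ) (φ y)) (φ y) := fun g =>
    ((hcd g).differentiableAt (by simp)).hasFDerivAt
  have h0 : ei (ρ 1) φ =ᶠ[𝓝 (φ y)] id := by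
    filter_upwards [φ.open_target.mem_nhds hyt] with v hv
    show φ (ρ 1 (φ.symm v)) = v
    rw [map_one]
    exact φ.right_inv hv
  have hmulL : ∀ g h, fderiv ℝ (ei (ρ (g * h)) φ) (φ y) =
      (fderiv ℝ (ei (ρ g) φ) (φ y)).comp (fderiv ℝ (ei (ρ h) φ) (φ y)) := by
    intro g h
    have h1 : ei (ρ (g * h)) φ =ᶠ[𝓝 (φ y)] ei (ρ g) φ ∘ ei (ρ h) φ := by
      have h2 : ContinuousAt (fun v => ρ h (φ.symm v)) (φ y) := by
        have h3 : ContinuousAt φ.symm (φ y) := φ.continuousAt_symm hyt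
        exact ((hρ h).continuous.continuousAt).comp h3
      have h4 : ∀ᶠ v in 𝓝 (φ y), ρ h (φ.symm v) ∈ φ.source := by
        apply h2.eventually
        show ∀ᶠ y in 𝓝 (ρ h (φ.symm (φ y))), y ∈ φ.source
        rw [hsy]
        exact φ.open_source.mem_nhds hys
      filter_upwards [h4] with v hv
      show φ (ρ (g * h) (φ.symm v)) = φ (ρ g (φ.symm (φ (ρ h (φ.symm v)))))
      rw [φ.left_inv hv, map_mul]
      rfl
    have h5 : HasFDerivAt (ei (ρ g) φ) (fderiv ℝ (ei (ρ g) φ) (φ y)) (ei (ρ h) φ (φ y)) := by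
      rw [hval]
      exact hder g
    exact ((h5.comp (φ y) (hder h)).congr_of_eventuallyEq h1).fderiv
  have h1L : fderiv ℝ (ei (ρ 1) φ) (φ y) = (1 : V n →L[ℝ] V n) :=
    ((hasFDerivAt_id (φ y)).congr_of_eventuallyEq h0).fderiv
  set L : H →* (V n →L[ℝ] V n) :=
    { toFun := fun g => fderiv ℝ (ei (ρ g) φ) (φ y)
      map_one' := h1L
      map_mul' := hmulL } with hL
  have hder' : ∀ g, HasFDerivAt (ei (ρ g) φ) (L g) (φ y) := hder
  have hm0 : (Fintype.card H : ℝ) ≠ 0 := by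
    exact_mod_cast Fintype.card_ne_zero
  -- averaging
  set θ : V n → V n := fun v => (1 / (Fintype.card H : ℝ)) • ∑ g, L g⁻¹ (ei (ρ g) φ v) with hθ
  have hθd : HasFDerivAt θ ((ContinuousLinearEquiv.refl ℝ (V n) : V n ≃L[ℝ] V n) :
      V n →L[ℝ] V n) (φ y) := by
    have h1 : HasFDerivAt θ ((1 / (Fintype.card H : ℝ)) • ∑ g, (L g⁻¹).comp (L g)) (φ y) := by
      have h1' : HasFDerivAt (fun v => ∑ g, L g⁻¹ (ei (ρ g) φ v))
          (∑ g, (L g⁻¹).comp (L g)) (φ y) :=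
        HasFDerivAt.fun_sum fun g _ => (L g⁻¹).hasFDerivAt.comp (φ y) (hder' g)
      exact h1'.const_smul (1 / (Fintype.card H : ℝ))
    have h2 : (1 / (Fintype.card H : ℝ)) • ∑ g, (L g⁻¹).comp (L g) =
        ((ContinuousLinearEquiv.refl ℝ (V n) : V n ≃L[ℝ] V n) : V n →L[ℝ] V n) := by
      have h3 : ∀ g ∈ (Finset.univ : Finset H), (L g⁻¹).comp (L g) = (1 : V n →L[ℝ] V n) := by
        intro g _
        have h4 : L g⁻¹ * L g = 1 := by
          rw [← map_mul, inv_mul_cancel, map_one]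
        exact h4
      rw [Finset.sum_congr rfl h3, Finset.sum_const, Finset.card_univ, ← Nat.cast_smul_eq_nsmul ℝ,
        smul_smul, one_div, inv_mul_cancel₀ hm0, one_smul]
      rfl
    rw [← h2]
    exact h1
  set W0 : Set N := ⋂ g, ρ g ⁻¹' φ.source with hW0
  have hW0o : IsOpen W0 := isOpen_iInter_of_finite fun g =>
    φ.open_source.preimage (hρ g).continuous
  set Ω : Set (V n) := φ.target ∩ φ.symm ⁻¹' W0 with hΩ
  have hΩo : IsOpen Ω := φ.continuousOn_symm.isOpen_inter_preimage φ.open_target hW0o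
  have hyΩ : φ y ∈ Ω := by
    refine ⟨hyt, ?_⟩
    simp only [hW0, mem_preimage, mem_iInter]
    intro g
    rw [hsy]
    exact hys
  have hθs : ContDiffOn ℝ ∞ θ Ω := by
    refine ContDiffOn.const_smul _ ?_
    refine ContDiffOn.sum fun g _ => ?_
    refine (L g⁻¹).contDiff.comp_contDiffOn ?_
    intro v hv
    have h1 : ρ g (φ.symm v) ∈ φ.source := by
      have h2 := hv.2
      simp only [hW0, mem_preimage, mem_iInter] at h2
      exact h2 g
    exact (ei_cd (hρ g) hφ hv.1 h1).contDiffWithinAt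
  obtain ⟨Θ, hΘ, hyΘ, hΘΩ, hΘs⟩ := Pool.Agent.W486.SC.ift hΩo hθs hyΩ _ hθd
  set ψ₀ : OpenPartialHomeomorph N (V n) := φ.trans Θ with hψ₀
  have hψ₀v : ∀ x, ψ₀ x = θ (φ x) := fun x => hΘ (φ x)
  have hψ₀s : ∀ x, x ∈ ψ₀.source ↔ x ∈ φ.source ∧ φ x ∈ Θ.source := fun x => Iff.rfl
  set W : Set N := ⋂ g, ρ g ⁻¹' ψ₀.source with hW
  have hWo : IsOpen W := isOpen_iInter_of_finite fun g =>
    ψ₀.open_source.preimage (hρ g).continuous
  have hWm : ∀ x, x ∈ W ↔ ∀ g, ρ g x ∈ ψ₀.source := by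
    intro x
    simp only [hW, mem_iInter, mem_preimage]
  set ψ := ψ₀.restrOpen W hWo with hψ
  have hψs : ∀ x, x ∈ ψ.source ↔ x ∈ ψ₀.source ∧ x ∈ W := by
    intro x
    rw [hψ, OpenPartialHomeomorph.restrOpen_source]
    rfl
  refine ⟨ψ, ?_, L, ?_, ?_⟩
  · apply OpenPartialHomeomorph.mem_maximalAtlas_of_contMDiffOn
    · have h2 : ContMDiffOn (𝓡 n) (𝓡 n) ∞ (θ ∘ φ) ψ.source :=
        hθs.contMDiffOn.comp ((contMDiffOn_of_mem_maximalAtlas hφ).mono
          (fun x hx => ((hψs x).1 hx).1.1)) (fun x hx => hΘΩ ((hψs x).1 hx).1.2)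
      exact h2.congr fun x _ => hψ₀v x
    · have h2 : ContMDiffOn (𝓡 n) (𝓡 n) ∞ (φ.symm ∘ Θ.symm) ψ.target := by
        have h3 : ∀ v ∈ ψ.target, v ∈ Θ.target ∧ Θ.symm v ∈ φ.target := by
          intro v hv
          have h4 : ψ.symm v ∈ ψ.source := ψ.map_target hv
          have h5 : v ∈ ψ₀.target := by
            have h6 : ψ₀ (ψ.symm v) ∈ ψ₀.target := ψ₀.map_source ((hψs _).1 h4).1
            have h7 : ψ₀ (ψ.symm v) = v := ψ.right_inv hv
            rwa [h7] at h6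
          exact h5
        exact (contMDiffOn_symm_of_mem_maximalAtlas hφ).comp
          (hΘs.contMDiffOn.mono fun v hv => (h3 v hv).1) (fun v hv => (h3 v hv).2)
      exact h2
  · rw [hψs, hWm]
    have h1 : y ∈ ψ₀.source := ⟨hys, hyΘ⟩
    exact ⟨h1, fun g => by rw [hy]; exact h1⟩
  · intro h x hx
    rw [hψs, hWm] at hx
    have hρm : ∀ g, ρ g (ρ h x) = ρ (g * h) x := fun g => by rw [map_mul]; rfl
    constructor
    · rw [hψs, hWm]
      exact ⟨hx.2 h, fun g => by rw [hρm]; exact hx.2 _⟩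
    · show ψ₀ (ρ h x) = L h (ψ₀ x)
      rw [hψ₀v, hψ₀v]
      have h1 : ∀ (z : N), z ∈ φ.source → ∀ g, ei (ρ g) φ (φ z) = φ (ρ g z) := by
        intro z hz g
        show φ (ρ g (φ.symm (φ z))) = _
        rw [φ.left_inv hz]
      have hxs : x ∈ φ.source := hx.1.1
      have hExs : ρ h x ∈ φ.source := (hx.2 h).1
      simp only [hθ]
      rw [map_smul, map_sum]
      congr 1
      rw [← Equiv.sum_comp (Equiv.mulRight h) (fun g => L h (L g⁻¹ (ei (ρ g) φ (φ x))))]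
      refine Finset.sum_congr rfl fun g _ => ?_
      rw [h1 _ hExs g, hρm]
      show _ = L h (L (g * h)⁻¹ (ei (ρ (g * h)) φ (φ x)))
      rw [h1 _ hxs]
      have h2 : ∀ a b : H, ∀ v, L a (L b v) = L (a * b) v := fun a b v => by rw [map_mul]; rfl
      rw [h2, mul_inv_rev, mul_inv_cancel_left]

end Pool.Agent.X183.IM
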