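import Pool.Agent.X183.IM.Lin
import Pool.Agent.X84.Pm.Open
import Pool.Agent.X183.IM.Boch

/-!
# Invariant Morse functions for finite groups

Adapted from `Pool.Agent.X84.Pm.Inv` (helper84), which treats cyclic groups.
-/

open scoped Topology ContDiff Manifold
open Set Filter

set_option autoImplicit false
set_option linter.unusedSectionVars false

noncomputable section

namespace Pool.Agent.X183.IM

open Pool.Agent.X84.Fl Pool.Agent.X84.Fm
open Pool.Agent.X84.Pm (Gd gd_stable gd_isOpen)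
open Pool.Agent.H718R2.G Pool.Agent.TH80.OMS Pool.Agent.Y504.CO Pool.Agent.Y318.MN

universe u

variable {n : ℕ} {N : Type u} [TopologicalSpace N] [T2Space N]
  [ChartedSpace (V n) N] [IsManifold (𝓡 n) ∞ N] [CompactSpace N]
  {G : Type} [Group G] [Fintype G]

theorem act_mul (ρ : G →* Equiv.Perm N) (g h : G) (x : N) : ρ g (ρ h x) = ρ (g * h) x := by
  rw [map_mul]; rfl

/-- the stabiliser -/
def St (ρ : G →* Equiv.Perm N) (y : N) : Subgroup G where
  carrier := {g | ρ g y = y}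
  one_mem' := by
    show ρ 1 y = y
    rw [map_one]; rfl
  mul_mem' := by
    intro a b ha hb
    show ρ (a * b) y = y
    rw [← act_mul, show ρ b y = y from hb, show ρ a y = y from ha]
  inv_mem' := by
    intro a ha
    show ρ a⁻¹ y = y
    have h : ρ a y = y := ha
    conv_lhs => rw [← h, act_mul, inv_mul_cancel, map_one]
    rfl

/-- cut-off functions for averages -/
theorem exists_avg (ρ : G →* Equiv.Perm N) (hρ : ∀ g, ContMDiff (𝓡 n) (𝓡 n) ∞ (ρ g)) {y : N}
    {ψ : OpenPartialHomeomorph N (V n)} (hyψ : y ∈ ψ.source)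
    {L : St ρ y →* (V n →L[ℝ] V n)}
    (hL : ∀ g : St ρ y, ∀ x ∈ ψ.source, ρ g x ∈ ψ.source ∧ ψ (ρ g x) = L g (ψ x)) :
    ∃ (β : N → ℝ) (κ : ℝ), ContMDiff (𝓡 n) 𝓘(ℝ, ℝ) ∞ β ∧ tsupport β ⊆ ψ.source ∧ 0 < κ ∧
      ∀ᶠ x in 𝓝 y, ∀ Λ : V n → ℝ, (∀ g v, Λ (L g v) = Λ v) →
        ∑ g, β (ρ g x) * Λ (ψ (ρ g x)) = κ * Λ (ψ x) := by
  classical
  set F : Set N := (range fun g => ρ g y) \ {y} with hF
  have hFf : F.Finite := (finite_range _).subset sdiff_subset
  have hS : ψ.source ∩ Fᶜ ∈ 𝓝 y := by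
    refine inter_mem (ψ.open_source.mem_nhds hyψ) (hFf.isClosed.isOpen_compl.mem_nhds ?_)
    intro h
    exact h.2 rfl
  obtain ⟨f, -, hf⟩ := (SmoothBumpFunction.nhds_basis_tsupport (I := 𝓡 n) y).mem_iff.1 hS
  set κ : ℝ := ∑ g, (if ρ g y = y then (1 : ℝ) else 0) with hκ
  refine ⟨f, κ, f.contMDiff, hf.trans inter_subset_left, ?_, ?_⟩
  · have h1 : (0 : ℝ) < (if ρ 1 y = y then (1 : ℝ) else 0) := by
      rw [if_pos (show ρ 1 y = y from (St ρ y).one_mem)]; exact one_pos
    refine lt_of_lt_of_le h1 ?_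
    exact Finset.single_le_sum (f := fun g => if ρ g y = y then (1 : ℝ) else 0)
      (fun i _ => by positivity) (Finset.mem_univ 1)
  · have key : ∀ g ∈ (Finset.univ : Finset G), ∀ᶠ x in 𝓝 y, ∀ Λ : V n → ℝ,
        (∀ g v, Λ (L g v) = Λ v) →
        f (ρ g x) * Λ (ψ (ρ g x)) = (if ρ g y = y then (1 : ℝ) else 0) * Λ (ψ x) := by
      intro g _
      have hc : Continuous (ρ g) := (hρ g).continuous
      by_cases h1 : ρ g y = y
      · have h2 : ∀ᶠ x in 𝓝 y, f (ρ g x) = 1 := by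
          have h3 : Tendsto (ρ g) (𝓝 y) (𝓝 y) := by
            have := hc.tendsto y
            rwa [h1] at this
          exact h3.eventually f.eventuallyEq_one
        filter_upwards [h2, ψ.open_source.mem_nhds hyψ] with x hx hxs Λ hΛ
        rw [hx, if_pos h1, one_mul, one_mul, (hL ⟨g, h1⟩ x hxs).2, hΛ]
      · have h2 : ∀ᶠ x in 𝓝 y, f (ρ g x) = 0 := by
          have h3 : ρ g y ∉ tsupport f := by
            intro h4
            exact (hf h4).2 ⟨⟨g, rfl⟩, h1⟩
          have h5 : ∀ᶠ z in 𝓝 (ρ g y), z ∉ tsupport f :=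
            (isClosed_tsupport f).isOpen_compl.mem_nhds h3
          filter_upwards [(hc.tendsto y).eventually h5] with x hx
          exact image_eq_zero_of_notMem_tsupport hx
        filter_upwards [h2] with x hx Λ _
        rw [hx, if_neg h1, zero_mul, zero_mul]
    have h1 := (Filter.eventually_all_finset (Finset.univ : Finset G)).2 key
    filter_upwards [h1] with x hx Λ hΛ
    rw [Finset.sum_congr rfl fun g hg => hx g hg Λ hΛ, ← Finset.sum_mul]

/-- averaged functions -/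
def avf (ρ : G →* Equiv.Perm N) (ψ : OpenPartialHomeomorph N (V n)) (β : N → ℝ) (Λ : V n → ℝ)
    (x : N) : ℝ := ∑ g, β (ρ g x) * Λ (ψ (ρ g x))

theorem avf_smooth {ρ : G →* Equiv.Perm N} (hρ : ∀ g, ContMDiff (𝓡 n) (𝓡 n) ∞ (ρ g))
    {ψ : OpenPartialHomeomorph N (V n)} (hψ : ψ ∈ IsManifold.maximalAtlas (𝓡 n) ∞ N)
    {β : N → ℝ} (hβ : ContMDiff (𝓡 n) 𝓘(ℝ, ℝ) ∞ β) (hs : tsupport β ⊆ ψ.source) {Λ : V n → ℝ}
    (hΛ : ContDiff ℝ ∞ Λ) : ContMDiff (𝓡 n) 𝓘(ℝ, ℝ) ∞ (avf ρ ψ β Λ) := by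
  have h1 : ContMDiff (𝓡 n) 𝓘(ℝ, ℝ) ∞ (fun x => β x * Λ (ψ x)) := by
    refine contMDiff_of_tsupport fun x hx => ?_
    have hx' : x ∈ ψ.source := hs (closure_mono (fun z hz => by
      rw [Function.mem_support] at hz ⊢
      exact left_ne_zero_of_mul hz) hx)
    have h2 : ContMDiffAt (𝓡 n) (𝓡 n) ∞ ψ x :=
      (contMDiffOn_of_mem_maximalAtlas hψ _ hx').contMDiffAt (ψ.open_source.mem_nhds hx')
    exact (hβ x).mul ((hΛ.contMDiff (ψ x)).comp x h2)
  have h2 : ∀ g ∈ (Finset.univ : Finset G), ContMDiff (𝓡 n) 𝓘(ℝ, ℝ) ∞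
      (fun x => β (ρ g x) * Λ (ψ (ρ g x))) := fun g _ => h1.comp (hρ g)
  exact ContMDiff.sum h2

theorem avf_inv (ρ : G →* Equiv.Perm N)
    (ψ : OpenPartialHomeomorph N (V n)) (β : N → ℝ) (Λ : V n → ℝ) (h : G) (x : N) :
    avf ρ ψ β Λ (ρ h x) = avf ρ ψ β Λ x := by
  unfold avf
  rw [← Equiv.sum_comp (Equiv.mulRight h) (fun g => β (ρ g x) * Λ (ψ (ρ g x)))]
  refine Finset.sum_congr rfl fun g _ => ?_
  rw [act_mul]
  rfl

open Classical in
/-- the elements which fix `x` -/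
def fx (ρ : G →* Equiv.Perm N) (x : N) : Finset G := Finset.univ.filter fun g => ρ g x = x

theorem mem_fx {ρ : G →* Equiv.Perm N} {x : N} {g : G} : g ∈ fx ρ x ↔ ρ g x = x := by
  classical
  simp [fx]

/-- the points fixed by at least `k` elements -/
def Ck (ρ : G →* Equiv.Perm N) (k : ℕ) : Set N := {x | k ≤ (fx ρ x).card}

theorem Ck_closed {ρ : G →* Equiv.Perm N} (hρ : ∀ g, Continuous (ρ g)) (k : ℕ) :
    IsClosed (Ck ρ k) := by
  classical
  have h1 : Ck ρ k = ⋃ S ∈ (Finset.univ : Finset (Finset G)).filter (fun S => k ≤ S.card),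
      ⋂ g ∈ S, {x | ρ g x = x} := by
    ext x
    simp only [Ck, mem_ofPred_eq, mem_iUnion, Finset.mem_filter, Finset.mem_univ, true_and,
      exists_prop, mem_iInter]
    constructor
    · intro h
      exact ⟨fx ρ x, h, fun g hg => mem_fx.1 hg⟩
    · rintro ⟨S, hS, h⟩
      exact hS.trans (Finset.card_le_card fun g hg => mem_fx.2 (h g hg))
  rw [h1]
  exact isClosed_biUnion_finset fun S _ => isClosed_biInter fun g _ =>
    isClosed_eq (hρ g) continuous_id

/-- there are finitely many invariant functions whose small linear combinations can be added to any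
invariant function such that the critical points in `B ∩ Ck` become nondegenerate -/
def Fix (ρ : G →* Equiv.Perm N) (k : ℕ) (B : Set N) : Prop :=
  ∃ (m : ℕ) (g : Fin m → N → ℝ), (∀ i, ContMDiff (𝓡 n) 𝓘(ℝ, ℝ) ∞ (g i)) ∧
    (∀ i a x, g i (ρ a x) = g i x) ∧ ∀ h : N → ℝ, ContMDiff (𝓡 n) 𝓘(ℝ, ℝ) ∞ h →
      (∀ a x, h (ρ a x) = h x) → ∀ ε : ℝ, 0 < ε → ∃ s : Fin m → ℝ, ‖s‖ < ε ∧
        ∀ x ∈ B, x ∈ Ck ρ k → Gd n (pf h g s) x

theorem local_step {ρ : G →* Equiv.Perm N} (hρ : ∀ g, ContMDiff (𝓡 n) (𝓡 n) ∞ (ρ g)) {y : N} :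
    ∃ B ∈ 𝓝 y, Fix (n := n) ρ (fx ρ y).card B := by
  classical
  letI : Fintype (St ρ y) := Fintype.ofFinite _
  obtain ⟨ψ, hψ, L, hyψ, hL⟩ := bochner (ρ.comp (St ρ y).subtype) (fun g => hρ g) (y := y)
    (fun g => g.2)
  have hL : ∀ g : St ρ y, ∀ x ∈ ψ.source, ρ g x ∈ ψ.source ∧ ψ (ρ g x) = L g (ψ x) := hL
  obtain ⟨β, κ, hβ, hβs, hκ, hev⟩ := exists_avg ρ hρ hyψ hL
  have hκ0 : κ ≠ 0 := hκ.ne'
  obtain ⟨A, hA1, hA2, hA3⟩ := eventually_nhds_iff.1 hev
  have hQs : ContDiff ℝ ∞ (Qf L) := by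
    unfold Qf
    exact ContDiff.sum fun p _ => (dl L p).contDiff.norm_sq ℝ
  have hls : ∀ k : Fin (dm (V n)), ContDiff ℝ ∞ (fun v => co (V n) k (av L v)) := fun k =>
    ((co (V n) k).comp (av L)).contDiff
  set g : Fin (dm (V n) + 1) → N → ℝ := Fin.cons (avf ρ ψ β (Qf L))
    (fun k => avf ρ ψ β (fun v => co (V n) k (av L v))) with hg
  set W : Set N := ⋂ a ∈ (Finset.univ : Finset G).filter (fun a => ρ a y ≠ y),
    {x | ρ a x ≠ x} with hW
  have hWo : IsOpen W := isOpen_biInter_finset fun a _ =>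
    isOpen_ne_fun (hρ a).continuous continuous_id
  have hyW : y ∈ W := by
    simp only [hW, mem_iInter, Finset.mem_filter, Finset.mem_univ, true_and, mem_ofPred_eq]
    exact fun a ha => ha
  refine ⟨A ∩ ψ.source ∩ W, ((hA2.inter ψ.open_source).inter hWo).mem_nhds ⟨⟨hA3, hyψ⟩, hyW⟩,
    dm (V n) + 1, g, ?_, ?_, ?_⟩
  · intro i
    refine Fin.cases ?_ (fun k => ?_) i
    · exact avf_smooth hρ hψ hβ hβs hQs
    · exact avf_smooth hρ hψ hβ hβs (hls k)
  · intro i
    refine Fin.cases ?_ (fun k => ?_) i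
    · exact avf_inv ρ ψ β (Qf L)
    · exact avf_inv ρ ψ β (fun v => co (V n) k (av L v))
  · intro h hh hinv ε hε
    set C : ℝ := 1 + ∑ k, ‖Module.finBasis ℝ (V n) k‖ with hC
    have hC1 : 1 ≤ C := by
      have : 0 ≤ ∑ k, ‖Module.finBasis ℝ (V n) k‖ := Finset.sum_nonneg fun k _ => norm_nonneg _
      linarith
    have hCk : ∀ k, ‖Module.finBasis ℝ (V n) k‖ ≤ C := by
      intro k
      have h1 := Finset.single_le_sum (f := fun k => ‖Module.finBasis ℝ (V n) k‖)
        (fun k _ => norm_nonneg _) (Finset.mem_univ k)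
      have h1' : ‖Module.finBasis ℝ (V n) k‖ ≤ ∑ k, ‖Module.finBasis ℝ (V n) k‖ := h1
      linarith
    have hΩinv : ∀ a : St ρ y, ∀ v ∈ ψ.target, L a v ∈ ψ.target ∧
        ψ.symm (L a v) = ρ a (ψ.symm v) := by
      intro a v hv
      have h1 := hL a (ψ.symm v) (ψ.map_target hv)
      rw [ψ.right_inv hv] at h1
      refine ⟨?_, ?_⟩
      · rw [← h1.2]
        exact ψ.map_source h1.1
      · rw [← h1.2, ψ.left_inv h1.1]
    have hHs : ContDiffOn ℝ ∞ (fun v => h (ψ.symm v)) ψ.target := fun v hv =>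
      (chart_cd hh hψ hv).contDiffWithinAt
    obtain ⟨l, c, hl, hc, hnd⟩ := lin_generic L ψ.open_target (fun a v hv => (hΩinv a v hv).1)
      (fun v => h (ψ.symm v)) hHs
      (fun a v hv => by rw [(hΩinv a v hv).2, hinv])
      (ε := κ * ε / (2 * C)) (by positivity)
    set s : Fin (dm (V n) + 1) → ℝ := Fin.cons (c / κ)
      (fun k => l (Module.finBasis ℝ (V n) k) / κ) with hs
    have hsε : ‖s‖ < ε := by
      have h2 : ‖s‖ ≤ ε / 2 := by
        refine (pi_norm_le_iff_of_nonneg (by positivity)).2 fun i => ?_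
        refine Fin.cases ?_ (fun k => ?_) i
        · show ‖c / κ‖ ≤ ε / 2
          rw [norm_div, Real.norm_eq_abs, Real.norm_of_nonneg hκ.le, div_le_iff₀ hκ]
          refine hc.le.trans ?_
          rw [div_le_iff₀ (by positivity)]
          nlinarith [mul_pos hκ hε]
        · show ‖l (Module.finBasis ℝ (V n) k) / κ‖ ≤ ε / 2
          rw [norm_div, Real.norm_of_nonneg hκ.le, div_le_iff₀ hκ]
          have h3 := l.le_opNorm (Module.finBasis ℝ (V n) k)
          have h4 : ‖l‖ * ‖Module.finBasis ℝ (V n) k‖ ≤ κ * ε / (2 * C) * C :=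
            mul_le_mul hl.le (hCk k) (norm_nonneg _) (by positivity)
          have h5 : κ * ε / (2 * C) * C = ε / 2 * κ := by
            field_simp
          linarith
      linarith
    refine ⟨s, hsε, ?_⟩
    rintro x ⟨⟨hxA, hxψ⟩, hxW⟩ hxk hcrit
    have hfix : ∀ a : St ρ y, ρ a x = x := by
      have h1 : fx ρ x ⊆ fx ρ y := by
        intro a ha
        rw [mem_fx] at ha ⊢
        by_contra hne
        simp only [hW, mem_iInter, Finset.mem_filter, Finset.mem_univ, true_and,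
          mem_ofPred_eq] at hxW
        exact hxW a hne ha
      have h2 := Finset.eq_of_subset_of_card_le h1 hxk
      intro a
      apply mem_fx.1
      rw [h2]
      exact mem_fx.2 a.2
    have hgs : ∀ i, ContMDiff (𝓡 n) 𝓘(ℝ, ℝ) ∞ (g i) := by
      intro i
      refine Fin.cases ?_ (fun k => ?_) i
      · exact avf_smooth hρ hψ hβ hβs hQs
      · exact avf_smooth hρ hψ hβ hβs (hls k)
    have hq := pf_smooth (E := V n) hh hgs s
    have hLx : ∀ a, L a (ψ x) = ψ x := by
      intro a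
      rw [← (hL a x hxψ).2, hfix]
    have hloc : ∀ z ∈ A, z ∈ ψ.source → pf h g s z =
        h z + (l (av L (ψ z)) + c * Qf L (ψ z)) := by
      intro z hz _
      have h1 := hA1 z hz
      unfold pf
      rw [Fin.sum_univ_succ]
      have h2 : s 0 * g 0 z = c * Qf L (ψ z) := by
        show c / κ * avf ρ ψ β (Qf L) z = _
        rw [show avf ρ ψ β (Qf L) z = κ * Qf L (ψ z) from h1 _ fun a v => Qf_L a v]
        field_simp
      have h3 : ∑ k : Fin (dm (V n)), s k.succ * g k.succ z = l (av L (ψ z)) := by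
        have h4 : ∀ k : Fin (dm (V n)), s k.succ * g k.succ z =
            l (Module.finBasis ℝ (V n) k) * co (V n) k (av L (ψ z)) := by
          intro k
          show l (Module.finBasis ℝ (V n) k) / κ *
            avf ρ ψ β (fun v => co (V n) k (av L v)) z = _
          rw [show avf ρ ψ β (fun v => co (V n) k (av L v)) z =
            κ * co (V n) k (av L (ψ z)) from h1 (fun v => co (V n) k (av L v)) fun a v => by
              show co (V n) k (av L (L a v)) = co (V n) k (av L v)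
              rw [av_L]]
          field_simp
        rw [Finset.sum_congr rfl fun k _ => h4 k]
        have h5 := DFunLike.congr_fun (sum_co l) (av L (ψ z))
        rw [sum_apply] at h5
        exact h5
      rw [h2, h3]
      ring
    have heq : (fun w => pf h g s (ψ.symm w)) =ᶠ[𝓝 (ψ x)]
        fun v => h (ψ.symm v) + (l (av L v) + c * Qf L v) := by
      have h1 : ∀ᶠ v in 𝓝 (ψ x), ψ.symm v ∈ A := by
        apply (ψ.continuousAt_symm (ψ.map_source hxψ)).eventually
        rw [ψ.left_inv hxψ]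
        exact hA2.mem_nhds hxA
      filter_upwards [h1, ψ.open_target.mem_nhds (ψ.map_source hxψ)] with v hv hvt
      rw [hloc _ hv (ψ.map_target hvt), ψ.right_inv hvt]
    refine nondeg_of_chart hq hψ hxψ ?_ ?_
    · exact (crit_iff hq hψ hxψ).1 hcrit
    · intro w hw
      refine hnd (ψ x) (ψ.map_source hxψ) hLx ?_ w ?_
      · rw [← heq.fderiv_eq]
        exact (crit_iff hq hψ hxψ).1 hcrit
      · rw [← heq.fderiv.fderiv_eq]
        exact hw

/-- **Invariant Morse functions** for finite groups of diffeomorphisms. -/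
theorem inv_morse {ρ : G →* Equiv.Perm N} (hρ : ∀ g, ContMDiff (𝓡 n) (𝓡 n) ∞ (ρ g)) :
    ∃ q : N → ℝ, ContMDiff (𝓡 n) 𝓘(ℝ, ℝ) ∞ q ∧ (∀ a x, q (ρ a x) = q x) ∧
      ∀ x, IsCrit n q x → Nondeg n q x := by
  classical
  set 𝒰 : (N → ℝ) → Prop := fun q => ContMDiff (𝓡 n) 𝓘(ℝ, ℝ) ∞ q ∧ ∀ a x, q (ρ a x) = q x with h𝒰
  have h2 : ∀ h, 𝒰 h → ∀ (k : ℕ) (g : Fin k → N → ℝ), (∀ i, ContMDiff (𝓡 n) 𝓘(ℝ, ℝ) ∞ (g i)) →
      (∀ i a x, g i (ρ a x) = g i x) → ∀ s : Fin k → ℝ, 𝒰 (pf h g s) := by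
    intro h hh k g hg1 hg2 s
    refine ⟨pf_smooth (E := V n) hh.1 hg1 s, ?_⟩
    intro a x
    unfold pf
    rw [hh.2]
    congr 1
    exact Finset.sum_congr rfl fun i _ => by rw [hg2]
  have main : ∀ j : ℕ, j ≤ Fintype.card G →
      ∃ q, 𝒰 q ∧ ∀ x ∈ Ck ρ (Fintype.card G + 1 - j), Gd n q x := by
    intro j
    induction j with
    | zero =>
      intro _
      refine ⟨fun _ => 0, ⟨contMDiff_const, fun _ _ => rfl⟩, ?_⟩
      intro x hx
      exfalso
      have h3 : Fintype.card G + 1 ≤ (fx ρ x).card := hx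
      have h4 := Finset.card_le_univ (fx ρ x)
      omega
    | succ j ih =>
      intro hj
      obtain ⟨q, hq, hqg⟩ := ih (by omega)
      set k := Fintype.card G + 1 - (j + 1) with hk
      have hk1 : Fintype.card G + 1 - j = k + 1 := by omega
      rw [hk1] at hqg
      have hCc := Ck_closed (fun g => (hρ g).continuous) k
      have hO := gd_isOpen hq.1
      set K : Set N := Ck ρ k \ {x | Gd n q x} with hK
      have hKc : IsClosed K := hCc.sdiff hO
      have key : ∀ y ∈ K, ∃ B : Set N, IsClosed B ∧ B ∈ 𝓝 y ∧ Fix (n := n) ρ k B := by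
        rintro y ⟨hy1, hyO⟩
        have hyk : (fx ρ y).card = k := by
          have h3 : k ≤ (fx ρ y).card := hy1
          by_contra hne
          exact hyO (hqg y (show k + 1 ≤ (fx ρ y).card by omega))
        obtain ⟨B, hB, m, g, hg1, hg2, hg3⟩ := local_step hρ (y := y)
        rw [hyk] at hg3
        obtain ⟨B', hB'1, hB'2, hB'3⟩ := exists_mem_nhds_isClosed_subset hB
        exact ⟨B', hB'2, hB'1, m, g, hg1, hg2, fun h' a1 a2 ε a3 => by
          obtain ⟨s, hs1, hs2⟩ := hg3 h' a1 a2 ε a3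
          exact ⟨s, hs1, fun x hx => hs2 x (hB'3 hx)⟩⟩
      choose! B hB1 hB2 hB3 using key
      obtain ⟨t, ht1, ht2⟩ := hKc.isCompact.elim_nhds_subcover (fun y => interior (B y))
        (fun y hy => interior_mem_nhds.2 (hB2 y hy))
      set D0 : Set N := Ck ρ k \ ⋃ y ∈ t, interior (B y) with hD0
      have hD0c : IsClosed D0 := hCc.sdiff (isOpen_biUnion fun y _ => isOpen_interior)
      have hD0g : ∀ x ∈ D0, Gd n q x := by
        rintro x ⟨hx1, hx2⟩
        by_contra hx3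
        exact hx2 (ht2 ⟨hx1, hx3⟩)
      have inner : ∀ t' : Finset N, t' ⊆ t → ∃ q', 𝒰 q' ∧
          ∀ x ∈ D0 ∪ ⋃ y ∈ t', (B y ∩ Ck ρ k), Gd n q' x := by
        intro t'
        induction t' using Finset.induction_on with
        | empty =>
          intro _
          refine ⟨q, hq, fun x hx => ?_⟩
          rcases hx with hx | hx
          · exact hD0g x hx
          · simp at hx
        | insert y t' hyt ih =>
          intro hsub
          obtain ⟨q', hq', hg'⟩ := ih fun z hz => hsub (Finset.mem_insert_of_mem hz)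
          have hyK : y ∈ K := ht1 y (hsub (Finset.mem_insert_self _ _))
          obtain ⟨m, g, hg1, hg2, hg3⟩ := hB3 y hyK
          have hDc : IsClosed (D0 ∪ ⋃ y ∈ t', (B y ∩ Ck ρ k)) := by
            refine hD0c.union (isClosed_biUnion_finset fun z hz => ?_)
            exact (hB1 z (ht1 z (hsub (Finset.mem_insert_of_mem hz)))).inter hCc
          have e1 := gd_stable hq'.1 hg1 hDc hg'
          obtain ⟨ε, hε, hball⟩ := Metric.eventually_nhds_iff.1 e1
          obtain ⟨s, hs1, hs2⟩ := hg3 q' hq'.1 hq'.2 ε hε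
          have e3 := hball (y := s) (by rw [dist_zero_right]; exact hs1)
          refine ⟨pf q' g s, h2 q' hq' m g hg1 hg2 s, ?_⟩
          intro x hx
          rcases hx with hx | hx
          · exact e3 x (Or.inl hx)
          · simp only [Finset.mem_insert, mem_iUnion, exists_prop] at hx
            obtain ⟨z, hz | hz, hx1, hx2⟩ := hx
            · rw [hz] at hx1
              exact hs2 x hx1 hx2
            · refine e3 x (Or.inr ?_)
              simp only [mem_iUnion, exists_prop]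
              exact ⟨z, hz, hx1, hx2⟩
      obtain ⟨q', hq', hg'⟩ := inner t subset_rfl
      refine ⟨q', hq', fun x hx => hg' x ?_⟩
      by_cases hx2 : x ∈ ⋃ y ∈ t, interior (B y)
      · simp only [mem_iUnion, exists_prop] at hx2
        obtain ⟨y, hy, hxy⟩ := hx2
        refine Or.inr ?_
        simp only [mem_iUnion, exists_prop]
        exact ⟨y, hy, interior_subset hxy, hx⟩
      · exact Or.inl ⟨hx, hx2⟩
  obtain ⟨q, hq, hg⟩ := main (Fintype.card G) le_rfl
  refine ⟨q, hq.1, hq.2, fun x => hg x ?_⟩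
  show Fintype.card G + 1 - Fintype.card G ≤ (fx ρ x).card
  have h3 : (1 : G) ∈ fx ρ x := mem_fx.2 (by rw [map_one]; rfl)
  have h4 := Finset.card_pos.2 ⟨_, h3⟩
  omega

end Pool.Agent.X183.IM
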