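import Pool.Agent.X84.Pm.Lin

/-!
# Nondegenerate critical points of functions invariant under a finite linear group

Adapted from `Pool.Agent.X84.Pm.Lin` (helper84), which treats cyclic groups.
-/

open Set Filter Topology MeasureTheory
open scoped ContDiff InnerProductSpace

set_option autoImplicit false

noncomputable section

namespace Pool.Agent.X183.IM

open Pool.Agent.X84.Pm (countable_of_isolated isolated_of_inj restr_generic bl)

variable {E : Type*} [NormedAddCommGroup E] [InnerProductSpace ℝ E]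
  {H : Type*} [Group H] [Fintype H]

/-- `∑ L_g` -/
def av (L : H →* (E →L[ℝ] E)) : E →L[ℝ] E := ∑ g, L g

/-- `L_g - L_h` -/
def dl (L : H →* (E →L[ℝ] E)) (p : H × H) : E →L[ℝ] E := L p.1 - L p.2

/-- the quadratic form `∑ ‖L_g v - L_h v‖²` -/
def Qf (L : H →* (E →L[ℝ] E)) (v : E) : ℝ := ∑ p : H × H, ‖dl L p v‖ ^ 2

/-- its derivative -/
def Nb (L : H →* (E →L[ℝ] E)) : E →L[ℝ] E →L[ℝ] ℝ :=
  ∑ p : H × H, (2 : ℝ) • (bl E).bilinearComp (dl L p) (dl L p)

theorem av_apply (L : H →* (E →L[ℝ] E)) (v : E) : av L v = ∑ g, L g v := by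
  unfold av
  rw [sum_apply]

theorem Nb_apply (L : H →* (E →L[ℝ] E)) (v w : E) :
    Nb L v w = ∑ p : H × H, 2 * ⟪dl L p v, dl L p w⟫_ℝ := by
  unfold Nb
  rw [sum_apply, sum_apply]
  rfl

variable {L : H →* (E →L[ℝ] E)}

theorem av_fix {v : E} (h : ∀ g, L g v = v) : av L v = (Fintype.card H : ℝ) • v := by
  rw [av_apply, Finset.sum_congr rfl fun g _ => h g, Finset.sum_const, Finset.card_univ,
    Nat.cast_smul_eq_nsmul]

theorem L_mul (g h : H) (v : E) : L (g * h) v = L g (L h v) := by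
  rw [map_mul]; rfl

theorem av_L (h : H) (v : E) : av L (L h v) = av L v := by
  rw [av_apply, av_apply]
  rw [← Equiv.sum_comp (Equiv.mulRight h) (fun g => L g v)]
  exact Finset.sum_congr rfl fun g _ => (L_mul g h v).symm

theorem L_av (h : H) (v : E) : L h (av L v) = av L v := by
  rw [av_apply, map_sum]
  rw [← Equiv.sum_comp (Equiv.mulLeft h) (fun g => L g v)]
  exact Finset.sum_congr rfl fun g _ => (L_mul h g v).symm

theorem dl_fix {v : E} (h : ∀ g, L g v = v) (p : H × H) : dl L p v = 0 := by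
  show L p.1 v - L p.2 v = 0
  rw [h, h, sub_self]

theorem Qf_L (h : H) (v : E) : Qf L (L h v) = Qf L v := by
  unfold Qf
  rw [← Equiv.sum_comp ((Equiv.mulRight h).prodCongr (Equiv.mulRight h))
    (fun p : H × H => ‖dl L p v‖ ^ 2)]
  refine Finset.sum_congr rfl fun p _ => ?_
  congr 2
  show L p.1 (L h v) - L p.2 (L h v) = L (p.1 * h) v - L (p.2 * h) v
  rw [L_mul, L_mul]

theorem hasFDerivAt_Qf (L : H →* (E →L[ℝ] E)) (v : E) : HasFDerivAt (Qf L) (Nb L v) v := by
  have h1 : HasFDerivAt (fun v => ∑ p : H × H, ‖dl L p v‖ ^ 2)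
      (∑ p : H × H, (2 : ℝ) • (innerSL ℝ (dl L p v)).comp (dl L p)) v := by
    refine HasFDerivAt.fun_sum fun p _ => ?_
    have h2 := (dl L p).hasFDerivAt (x := v) |>.norm_sq
    rw [two_smul] at h2 ⊢
    exact h2
  have h3 : Nb L v = ∑ p : H × H, (2 : ℝ) • (innerSL ℝ (dl L p v)).comp (dl L p) := by
    unfold Nb
    rw [sum_apply]
    rfl
  rw [h3]
  exact h1

theorem Nb_fix_left {v : E} (h : ∀ g, L g v = v) : Nb L v = 0 := by
  ext w
  rw [Nb_apply]
  simp [dl_fix h]

theorem Nb_fix_right {w : E} (h : ∀ g, L g w = w) (v : E) : Nb L v w = 0 := by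
  rw [Nb_apply]
  simp [dl_fix h]

/-- the bilinear form `Nb + ⟨av, av⟩` -/
def Jb (L : H →* (E →L[ℝ] E)) : E →L[ℝ] E →L[ℝ] ℝ :=
  Nb L + (bl E).bilinearComp (av L) (av L)

theorem Jb_apply (L : H →* (E →L[ℝ] E)) (v w : E) :
    Jb L v w = Nb L v w + ⟪av L v, av L w⟫_ℝ := rfl

theorem Jb_inj {w : E} (h : Jb L w = 0) : w = 0 := by
  have h1 : Jb L w w = 0 := by rw [h]; rfl
  rw [Jb_apply, Nb_apply, real_inner_self_eq_norm_sq] at h1
  have h2 : ∀ p ∈ (Finset.univ : Finset (H × H)), 0 ≤ 2 * ⟪dl L p w, dl L p w⟫_ℝ := fun i _ => by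
    rw [real_inner_self_eq_norm_sq]; positivity
  have h3 := Finset.sum_nonneg h2
  have h4 : ‖av L w‖ ^ 2 = 0 := by
    have := sq_nonneg ‖av L w‖
    linarith
  have h5 : ∑ p : H × H, 2 * ⟪dl L p w, dl L p w⟫_ℝ = 0 := by linarith
  have h8 : ∀ g, L g w = w := by
    intro g
    have h6 := (Finset.sum_eq_zero_iff_of_nonneg h2).1 h5 (g, 1) (Finset.mem_univ _)
    rw [real_inner_self_eq_norm_sq] at h6
    have h7 : dl L (g, 1) w = 0 := by
      rw [← norm_eq_zero]
      have : ‖dl L (g, 1) w‖ ^ 2 = 0 := by linarith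
      exact pow_eq_zero_iff (by norm_num) |>.1 this
    have h9 : L g w - L 1 w = 0 := h7
    rw [map_one] at h9
    exact sub_eq_zero.1 h9
  have h10 : av L w = 0 := by
    rw [← norm_eq_zero]
    exact pow_eq_zero_iff (by norm_num) |>.1 h4
  rw [av_fix h8, smul_eq_zero] at h10
  rcases h10 with h10 | h10
  · exfalso
    have : Fintype.card H = 0 := by exact_mod_cast h10
    exact Fintype.card_ne_zero this
  · exact h10

variable [FiniteDimensional ℝ E]

/-- finitely many bad constants -/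
theorem finite_bad (L : H →* (E →L[ℝ] E)) (M : E →L[ℝ] E →L[ℝ] ℝ) :
    {c : ℝ | ∃ w : E, w ≠ 0 ∧ M w + c • Jb L w = 0}.Finite := by
  have hdim : Module.finrank ℝ (E →L[ℝ] ℝ) = Module.finrank ℝ E := by
    rw [← (LinearMap.toContinuousLinearMap (𝕜 := ℝ) (E := E) (F' := ℝ)).finrank_eq]
    exact (Subspace.dual_finrank_eq (K := ℝ) (V := E))
  let τ : (E →L[ℝ] ℝ) ≃L[ℝ] E := ContinuousLinearEquiv.ofFinrankEq hdim
  let J : E →ₗ[ℝ] E := (τ : (E →L[ℝ] ℝ) →ₗ[ℝ] E) ∘ₗ (Jb L : E →ₗ[ℝ] E →L[ℝ] ℝ)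
  have hJ : Function.Injective J := by
    rw [injective_iff_map_eq_zero]
    intro w hw
    apply Jb_inj (L := L)
    exact τ.injective (hw.trans (map_zero τ).symm)
  let Je := LinearEquiv.ofInjectiveEndo J hJ
  let K : Module.End ℝ E := (Je.symm : E →ₗ[ℝ] E) ∘ₗ
    ((τ : (E →L[ℝ] ℝ) →ₗ[ℝ] E) ∘ₗ (M : E →ₗ[ℝ] E →L[ℝ] ℝ))
  have hfin : {μ : ℝ | K.HasEigenvalue μ}.Finite := Module.End.finite_hasEigenvalue K
  refine (hfin.preimage (f := fun c : ℝ => -c) (neg_injective.injOn)).subset ?_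
  rintro c ⟨w, hw, h⟩
  show K.HasEigenvalue (-c)
  refine Module.End.hasEigenvalue_of_hasEigenvector (x := w) ⟨?_, hw⟩
  rw [Module.End.mem_eigenspace_iff]
  show Je.symm (τ (M w)) = (-c) • w
  rw [LinearEquiv.symm_apply_eq, map_smul]
  show τ (M w) = (-c) • τ (Jb L w)
  have h2 : M w = (-c) • Jb L w := by
    have h3 := eq_neg_of_add_eq_zero_left h
    rw [h3]
    ext v
    simp
  rw [h2, map_smul]

/-- **Generic invariant perturbations in linear coordinates.** -/
theorem lin_generic (L : H →* (E →L[ℝ] E)) {Ω : Set E} (hΩ : IsOpen Ω)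
    (hLΩ : ∀ g, ∀ v ∈ Ω, L g v ∈ Ω) (F : E → ℝ) (hH : ContDiffOn ℝ ∞ F Ω)
    (hinv : ∀ g, ∀ v ∈ Ω, F (L g v) = F v) {ε : ℝ} (hε : 0 < ε) :
    ∃ (l : E →L[ℝ] ℝ) (c : ℝ), ‖l‖ < ε ∧ |c| < ε ∧ ∀ u ∈ Ω, (∀ g, L g u = u) →
      fderiv ℝ (fun v => F v + (l (av L v) + c * Qf L v)) u = 0 →
      ∀ w, fderiv ℝ (fderiv ℝ (fun v => F v + (l (av L v) + c * Qf L v))) u w = 0 → w = 0 := by
  classical
  set T : Submodule ℝ E := ⨅ g, LinearMap.ker ((L g : E →ₗ[ℝ] E) - LinearMap.id) with hTd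
  have hT : ∀ v : E, v ∈ T ↔ ∀ g, L g v = v := fun v => by
    rw [hTd, Submodule.mem_iInf]
    refine forall_congr' fun g => ?_
    rw [LinearMap.mem_ker]
    show L g v - v = 0 ↔ _
    exact sub_eq_zero
  set ι : T →L[ℝ] E := T.subtypeL with hι
  have hd1 : ∀ v ∈ Ω, DifferentiableAt ℝ F v := fun v hv =>
    ((hH.differentiableOn (by simp)) v hv).differentiableAt (hΩ.mem_nhds hv)
  have hf1 : ContDiffOn ℝ 1 (fderiv ℝ F) Ω := hH.fderiv_of_isOpen hΩ (by norm_cast)
  have hd2 : ∀ v ∈ Ω, DifferentiableAt ℝ (fderiv ℝ F) v := fun v hv =>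
    ((hf1.differentiableOn one_ne_zero) v hv).differentiableAt (hΩ.mem_nhds hv)
  obtain ⟨α, hαε, hα', hZc⟩ := restr_generic ι hΩ F hH hε
  set Z : Set T := {t : T | ι t ∈ Ω ∧ (fderiv ℝ F (ι t)).comp ι + α = 0} with hZ
  set B : Set ℝ := ⋃ t ∈ Z, {c : ℝ | ∃ w : E, w ≠ 0 ∧
    fderiv ℝ (fderiv ℝ F) ((t : T) : E) w + c • Jb L w = 0} with hB
  have hBc : B.Countable := hZc.biUnion fun t _ => (finite_bad L _).countable
  obtain ⟨c, hcB, hc⟩ := (hBc.dense_compl ℝ).exists_mem_open
    (Metric.isOpen_ball (x := (0 : ℝ)) (ε := ε)) ⟨0, Metric.mem_ball_self hε⟩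
  have hm0 : (0 : ℝ) < (Fintype.card H : ℝ) := by exact_mod_cast Fintype.card_pos (α := H)
  set l : E →L[ℝ] ℝ := (1 / (Fintype.card H : ℝ)) • α.comp T.orthogonalProjectionOnto with hl
  have hlT : ∀ t : T, l (av L t) = α t := by
    intro t
    rw [av_fix ((hT t).1 t.2), map_smul]
    show (Fintype.card H : ℝ) • ((1 / (Fintype.card H : ℝ)) • α (T.orthogonalProjectionOnto (t : E))) = α t
    rw [Submodule.orthogonalProjectionOnto_mem_subspace_eq_self, smul_smul, mul_one_div,
      div_self hm0.ne', one_smul]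
  refine ⟨l, c, ?_, by simpa using hc, ?_⟩
  · have h1 : ‖α.comp T.orthogonalProjectionOnto‖ ≤ ‖α‖ := by
      refine (ContinuousLinearMap.opNorm_comp_le _ _).trans ?_
      have := T.orthogonalProjectionOnto_norm_le
      nlinarith [norm_nonneg α]
    have h2 : ‖l‖ = 1 / (Fintype.card H : ℝ) * ‖α.comp T.orthogonalProjectionOnto‖ := by
      rw [hl, norm_smul, Real.norm_of_nonneg (by positivity)]
    have h3 : 1 / (Fintype.card H : ℝ) ≤ 1 := by
      rw [div_le_one hm0]
      exact_mod_cast Fintype.card_pos (α := H)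
    rw [h2]
    have h4 := norm_nonneg (α.comp T.orthogonalProjectionOnto)
    nlinarith
  · intro u hu hLu h0 w hw
    have hder : ∀ v ∈ Ω, fderiv ℝ (fun v => F v + (l (av L v) + c * Qf L v)) v =
        fderiv ℝ F v + (l.comp (av L) + c • Nb L v) := by
      intro v hv
      have h1 : HasFDerivAt (fun v => l (av L v)) (l.comp (av L)) v :=
        (l.comp (av L)).hasFDerivAt
      exact ((hd1 v hv).hasFDerivAt.add (h1.add ((hasFDerivAt_Qf L v).const_mul c))).fderiv
    have hder2 : fderiv ℝ (fderiv ℝ (fun v => F v + (l (av L v) + c * Qf L v))) u =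
        fderiv ℝ (fderiv ℝ F) u + c • Nb L := by
      have h1 : fderiv ℝ (fun v => F v + (l (av L v) + c * Qf L v)) =ᶠ[𝓝 u]
          fun v => fderiv ℝ F v + (l.comp (av L) + c • Nb L v) := by
        filter_upwards [hΩ.mem_nhds hu] with v hv
        exact hder v hv
      rw [h1.fderiv_eq]
      have h2 : HasFDerivAt (fun v => fderiv ℝ F v + (l.comp (av L) + c • Nb L v))
          (fderiv ℝ (fderiv ℝ F) u + c • Nb L) u := by
        refine (hd2 u hu).hasFDerivAt.add ?_
        exact ((Nb L).hasFDerivAt.const_smul c).const_add _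
      exact h2.fderiv
    rw [hder u hu, Nb_fix_left hLu, smul_zero, add_zero] at h0
    rw [hder2] at hw
    set M := fderiv ℝ (fderiv ℝ F) u with hM
    have huT : u ∈ T := (hT u).2 hLu
    have hcrit : (fderiv ℝ F (ι ⟨u, huT⟩)).comp ι + α = 0 := by
      ext t
      have h1 := DFunLike.congr_fun h0 (t : E)
      have h2 : fderiv ℝ F u (t : E) + l (av L (t : E)) = 0 := h1
      rw [hlT] at h2
      exact h2
    -- invariance of the second derivative
    have hMinv : ∀ (g : H) (x y : E), M (L g x) (L g y) = M x y := by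
      intro g
      have h1 : fderiv ℝ F =ᶠ[𝓝 u] fun v => (fderiv ℝ F (L g v)).comp (L g) := by
        filter_upwards [hΩ.mem_nhds hu] with v hv
        have h2 : (fun v => F (L g v)) =ᶠ[𝓝 v] F := by
          filter_upwards [hΩ.mem_nhds hv] with z hz
          exact hinv g z hz
        have h3 : HasFDerivAt (fun v => F (L g v)) ((fderiv ℝ F (L g v)).comp (L g)) v :=
          HasFDerivAt.comp v (hd1 _ (hLΩ g v hv)).hasFDerivAt (L g).hasFDerivAt
        rw [← h2.fderiv_eq, h3.fderiv]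
      have h4 : HasFDerivAt (fun v => (fderiv ℝ F (L g v)).comp (L g))
          (((ContinuousLinearMap.compL ℝ E E ℝ).flip (L g)).comp (M.comp (L g))) u := by
        have h5 : HasFDerivAt (fun v => fderiv ℝ F (L g v)) (M.comp (L g)) u := by
          have h6 : HasFDerivAt (fderiv ℝ F) M (L g u) := by
            rw [hLu g]
            exact (hd2 u hu).hasFDerivAt
          exact HasFDerivAt.comp u h6 (L g).hasFDerivAt
        exact ((ContinuousLinearMap.compL ℝ E E ℝ).flip (L g)).hasFDerivAt.comp u h5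
      have h7 : M = ((ContinuousLinearMap.compL ℝ E E ℝ).flip (L g)).comp (M.comp (L g)) := by
        conv_lhs => rw [hM, h1.fderiv_eq]
        exact h4.fderiv
      intro x y
      conv_rhs => rw [h7]
      rfl
    have hMT : ∀ (g : H) (x y : E), (∀ g, L g y = y) → M (L g x) y = M x y := by
      intro g x y hy
      have h1 := hMinv g x y
      rwa [hy g] at h1
    have hMav : ∀ (x y : E), (∀ g, L g y = y) → M (av L x) y = (Fintype.card H : ℝ) * M x y := by
      intro x y hy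
      rw [av_apply, map_sum, sum_apply,
        Finset.sum_congr rfl fun g _ => hMT g x y hy, Finset.sum_const, Finset.card_univ,
        nsmul_eq_mul]
    have hA0 : av L w = 0 := by
      have hAT : av L w ∈ T := (hT _).2 fun g => L_av g w
      have h1 : (⟨av L w, hAT⟩ : T) = 0 := by
        refine hα' ⟨u, huT⟩ hu hcrit _ fun t => ?_
        show M (av L w) t = 0
        have ht := (hT t).1 t.2
        rw [hMav w t ht]
        have h2 := DFunLike.congr_fun hw (t : E)
        have h3 : M w (t : E) + c * Nb L w (t : E) = 0 := h2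
        rw [Nb_fix_right ht, mul_zero, add_zero] at h3
        rw [h3, mul_zero]
      exact congrArg Subtype.val h1
    by_contra hw0
    apply hcB
    rw [hB]
    refine mem_biUnion (x := (⟨u, huT⟩ : T)) ⟨hu, hcrit⟩ ⟨w, hw0, ?_⟩
    have h1 : Jb L w = Nb L w := by
      ext y
      rw [Jb_apply, hA0, inner_zero_left, add_zero]
    rw [h1]
    exact hw

end Pool.Agent.X183.IM
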