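import Pool.Agent.X183.IM.Inv
import Pool.Agent.X183.ZM.Defs

/-!
# Finite `2`-groups acting on closed manifolds of odd Euler characteristic have fixed points
-/

open scoped Topology ContDiff Manifold
open Set Filter

set_option autoImplicit false
set_option linter.unusedSectionVars false

noncomputable section

namespace Pool.Agent.X183.IM

open Pool.Agent.H718R2.G Pool.Agent.Y504.CO Pool.Agent.Y318.MN Pool.Agent.X183.ZM

variable {n : ℕ} {N : Type} [TopologicalSpace N] [T2Space N]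
  [ChartedSpace (V n) N] [IsManifold (𝓡 n) ∞ N] [CompactSpace N]

theorem crit_inv {q : N → ℝ} (hq : ContMDiff (𝓡 n) 𝓘(ℝ, ℝ) ∞ q) {f : N → N}
    (hf : ContMDiff (𝓡 n) (𝓡 n) ∞ f) (hqf : ∀ x, q (f x) = q x) {y : N} (h : IsCrit n q (f y)) :
    IsCrit n q y := by
  have e : q = q ∘ f := funext fun x => (hqf x).symm
  have h1 : mfderiv (𝓡 n) 𝓘(ℝ, ℝ) (q ∘ f) y =
      (mfderiv (𝓡 n) 𝓘(ℝ, ℝ) q (f y)).comp (mfderiv (𝓡 n) (𝓡 n) f y) :=
    mfderiv_comp y (hq.contMDiffAt.mdifferentiableAt (by simp))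
      (hf.contMDiffAt.mdifferentiableAt (by simp))
  show mfderiv (𝓡 n) 𝓘(ℝ, ℝ) q y = 0
  conv_lhs => rw [e]
  rw [h1, show mfderiv (𝓡 n) 𝓘(ℝ, ℝ) q (f y) = 0 from h]
  exact ContinuousLinearMap.zero_comp _

/-- The number of critical points of every Morse function is odd. -/
def OddMorse (n : ℕ) (N : Type) [TopologicalSpace N] [ChartedSpace (V n) N] : Prop :=
  ∀ q : N → ℝ, ContMDiff (𝓡 n) 𝓘(ℝ, ℝ) ∞ q → (∀ x, IsCrit n q x → Nondeg n q x) →
    Odd {x : N | IsCrit n q x}.ncard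

theorem fixed_of_odd {G : Type} [Group G] [Fintype G] (hp : IsPGroup 2 G)
    {ρ : G →* Equiv.Perm N} (hρ : ∀ g, ContMDiff (𝓡 n) (𝓡 n) ∞ (ρ g)) (hN : OddMorse n N) :
    ∃ x, ∀ g, ρ g x = x := by
  obtain ⟨q, hq1, hq2, hq3⟩ := inv_morse hρ
  have hodd := hN q hq1 hq3
  set Z : Set N := {x : N | IsCrit n q x} with hZ
  have hinv : ∀ (g : G) (x : N), x ∈ Z → ρ g x ∈ Z := by
    intro g x hx
    have h1 : ρ g⁻¹ (ρ g x) = x := by
      rw [act_mul, inv_mul_cancel, map_one]; rfl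
    refine crit_inv hq1 (hρ g⁻¹) (hq2 g⁻¹) ?_
    rw [h1]
    exact hx
  letI : MulAction G Z :=
    { smul := fun g x => ⟨ρ g x, hinv g x x.2⟩
      one_smul := fun x => Subtype.ext (by
        show ρ 1 (x : N) = x
        rw [map_one]; rfl)
      mul_smul := fun g h x => Subtype.ext (by
        show ρ (g * h) (x : N) = ρ g (ρ h x)
        rw [act_mul]) }
  have hnd : ¬ 2 ∣ Nat.card Z := by
    rw [Nat.card_coe_set_eq]
    exact hodd.not_two_dvd_nat
  obtain ⟨x, hx⟩ := hp.nonempty_fixed_point_of_prime_not_dvd_card Z hnd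
  exact ⟨x, fun g => congrArg Subtype.val (hx g)⟩

theorem twoFixed_of_odd (D : Subgroup (Equiv.Perm N))
    (hD : ∀ g ∈ D, ContMDiff (𝓡 n) (𝓡 n) ∞ (g : Equiv.Perm N)) (hN : OddMorse n N) :
    TwoFixed D := by
  intro Q hQ hfin hp
  letI : Fintype Q := Fintype.ofFinite _
  obtain ⟨x, hx⟩ := fixed_of_odd (n := n) hp (ρ := Q.subtype) (fun g => hD _ (hQ g.2)) hN
  exact ⟨x, fun g hg => hx ⟨g, hg⟩⟩

end Pool.Agent.X183.IM
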